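import Mathlib

set_option autoImplicit false

namespace Pool.Agent.Results.MP_673260_co.Counter

/-- A finite permutation: a length `n` and a bijection of `Fin n` (position to value). -/
abbrev P : Type := Σ n : ℕ, Equiv.Perm (Fin n)

/-- `f` is an occurrence of `σ` in `π`: the positions are increasing and the chosen entries
of `π` are order-isomorphic to `σ`. -/
def Occ (σ π : P) (f : Fin σ.1 → Fin π.1) : Prop :=
  StrictMono f ∧ ∀ a b, σ.2 a < σ.2 b ↔ π.2 (f a) < π.2 (f b)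

/-- Pattern containment `σ ≤ π`. -/
def Le (σ π : P) : Prop := ∃ f, Occ σ π f

/-- A permutation class: contains the empty permutation and is closed downward. -/
def IsClass (C : Set P) : Prop :=
  (⟨0, 1⟩ : P) ∈ C ∧ ∀ π ∈ C, ∀ σ, Le σ π → σ ∈ C

/-- The merge: the entries are coloured red (range of `f`) and blue (range of `g`), each entry
getting exactly one colour, the red ones forming an element of `A`, the blue ones of `B`. -/
def merge (A B : Set P) : Set P :=
  {π | ∃ α ∈ A, ∃ β ∈ B, ∃ f g, Occ α π f ∧ Occ β π g ∧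
    ∀ i, (i ∈ Set.range f ↔ i ∉ Set.range g)}

/-- An exact split of `C` into two proper subclasses. -/
def ExactSplit (C A B : Set P) : Prop :=
  IsClass A ∧ IsClass B ∧ A ⊂ C ∧ B ⊂ C ∧ C = merge A B

/-- `IES C S`: the set of classes `S` is an irreducible exact-splitting of `C`. -/
inductive IES : Set P → Set (Set P) → Prop
  | atom (C : Set P) : (¬ ∃ A B, ExactSplit C A B) → IES C {C}
  | split (C A B : Set P) (S T : Set (Set P)) :
      ExactSplit C A B → IES A S → IES B T → IES C (S ∪ T)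

theorem le_trans' {a b c : P} (h1 : Le a b) (h2 : Le b c) : Le a c := by
  obtain ⟨f, hf, hf'⟩ := h1
  obtain ⟨g, hg, hg'⟩ := h2
  exact ⟨g ∘ f, hg.comp hf, fun x y => (hf' x y).trans (hg' _ _)⟩

theorem le_refl' (a : P) : Le a a := ⟨id, strictMono_id, fun _ _ => Iff.rfl⟩

theorem le_len {a b : P} (h : Le a b) : a.1 ≤ b.1 := by
  obtain ⟨f, hf, -⟩ := h
  simpa using Fintype.card_le_of_injective f hf.injective

/-- the pattern formed by a set of positions -/
theorem exists_pat (π : P) (S : Finset (Fin π.1)) :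
    ∃ σ : P, σ.1 = S.card ∧ ∃ f, Occ σ π f ∧ Set.range f = (S : Set (Fin π.1)) := by
  classical
  let f : Fin S.card ↪o Fin π.1 := S.orderEmbOfFin rfl
  let v : Fin S.card → Fin π.1 := fun a => π.2 (f a)
  have hv : Function.Injective v := π.2.injective.comp f.injective
  have hm : Monotone (v ∘ Tuple.sort v) := Tuple.monotone_sort v
  have hs : StrictMono (v ∘ Tuple.sort v) :=
    hm.strictMono_of_injective (hv.comp (Tuple.sort v).injective)
  refine ⟨⟨S.card, (Tuple.sort v).symm⟩, rfl, f, ⟨f.strictMono, fun a b => ?_⟩,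
    Finset.range_orderEmbOfFin S rfl⟩
  have := hs.lt_iff_lt (a := (Tuple.sort v).symm a) (b := (Tuple.sort v).symm b)
  simpa [v] using this.symm

/-- factoring an occurrence through another one -/
theorem le_of_range {σ α π : P} {f : Fin σ.1 → Fin π.1} {g : Fin α.1 → Fin π.1}
    (hf : Occ σ π f) (hg : Occ α π g) (h : Set.range f ⊆ Set.range g) : Le σ α := by
  have : ∀ a, ∃ b, g b = f a := fun a => h ⟨a, rfl⟩
  choose k hk using this
  refine ⟨k, fun a b hab => ?_, fun a b => ?_⟩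
  · have := hf.1 hab
    rw [← hk, ← hk] at this
    exact hg.1.lt_iff_lt.mp this
  · rw [hf.2, hg.2, hk, hk]

theorem occ_comp {a b c : P} {f : Fin a.1 → Fin b.1} {g : Fin b.1 → Fin c.1}
    (hf : Occ a b f) (hg : Occ b c g) : Occ a c (g ∘ f) :=
  ⟨hg.1.comp hf.1, fun x y => (hf.2 x y).trans (hg.2 _ _)⟩

theorem mem_merge_of {A B : Set P} (π : P) (S : Finset (Fin π.1))
    (hA : ∀ σ : P, σ.1 = S.card → ∀ f, Occ σ π f → Set.range f = (S : Set (Fin π.1)) → σ ∈ A)
    (hB : ∀ σ : P, σ.1 = Sᶜ.card → ∀ f, Occ σ π f →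
      Set.range f = ((Sᶜ : Finset (Fin π.1)) : Set (Fin π.1)) → σ ∈ B) :
    π ∈ merge A B := by
  obtain ⟨α, ha, f, hf, hr⟩ := exists_pat π S
  obtain ⟨β, hb, g, hg, hs⟩ := exists_pat π Sᶜ
  refine ⟨α, hA α ha f hf hr, β, hB β hb g hg hs, f, g, hf, hg, fun i => ?_⟩
  rw [hr, hs]
  simp

theorem merge_comm (A B : Set P) : merge A B = merge B A := by
  have key : ∀ A B : Set P, merge A B ⊆ merge B A := by
    rintro A B π ⟨α, ha, β, hb, f, g, hf, hg, h⟩
    refine ⟨β, hb, α, ha, g, f, hg, hf, fun i => ?_⟩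
    have := h i
    tauto
  exact Set.Subset.antisymm (key A B) (key B A)

theorem merge_class {A B : Set P} (hA : IsClass A) (hB : IsClass B) : IsClass (merge A B) := by
  classical
  constructor
  · exact ⟨_, hA.1, _, hB.1, id, id, ⟨strictMono_id, fun _ _ => Iff.rfl⟩,
      ⟨strictMono_id, fun _ _ => Iff.rfl⟩, fun i => i.elim0⟩
  · rintro π ⟨α, ha, β, hb, f, g, hf, hg, h⟩ σ ⟨k, hk⟩
    refine mem_merge_of σ (Finset.univ.filter fun i => k i ∈ Set.range f) ?_ ?_
    · intro τ _ u hu hr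
      refine hA.2 α ha τ (le_of_range (occ_comp hu hk) hf ?_)
      rintro _ ⟨x, rfl⟩
      have : u x ∈ Set.range u := ⟨x, rfl⟩
      rw [hr] at this
      simpa using this
    · intro τ _ u hu hr
      refine hB.2 β hb τ (le_of_range (occ_comp hu hk) hg ?_)
      rintro _ ⟨x, rfl⟩
      have : u x ∈ Set.range u := ⟨x, rfl⟩
      rw [hr] at this
      have h1 : k (u x) ∉ Set.range f := by simpa using this
      have h2 := h (k (u x))
      show k (u x) ∈ Set.range g
      tauto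

theorem merge_len {A B : Set P} {π : P} (h : π ∈ merge A B) :
    ∃ α ∈ A, ∃ β ∈ B, π.1 = α.1 + β.1 := by
  obtain ⟨α, ha, β, hb, f, g, hf, hg, h⟩ := h
  refine ⟨α, ha, β, hb, ?_⟩
  have hb : Function.Bijective (Sum.elim f g) := by
    constructor
    · rintro (x | x) (y | y) hxy
      · exact congrArg _ (hf.1.injective hxy)
      · exact absurd ⟨y, hxy.symm⟩ ((h (f x)).1 ⟨x, rfl⟩)
      · exact absurd ⟨x, hxy⟩ ((h (f y)).1 ⟨y, rfl⟩)
      · exact congrArg _ (hg.1.injective hxy)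
    · intro i
      by_cases hi : i ∈ Set.range f
      · obtain ⟨x, rfl⟩ := hi
        exact ⟨Sum.inl x, rfl⟩
      · have : i ∈ Set.range g := by
          have := h i
          tauto
        obtain ⟨x, rfl⟩ := this
        exact ⟨Sum.inr x, rfl⟩
  simpa using (Fintype.card_of_bijective hb).symm

theorem eq_zero (σ : P) (h : σ.1 = 0) : σ = ⟨0, 1⟩ := by
  obtain ⟨n, s⟩ := σ
  obtain rfl : n = 0 := h
  exact congrArg _ (Subsingleton.elim _ _)

theorem eq_one (σ : P) (h : σ.1 = 1) : σ = ⟨1, 1⟩ := by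
  obtain ⟨n, s⟩ := σ
  obtain rfl : n = 1 := h
  exact congrArg _ (Subsingleton.elim _ _)

theorem subset_merge {A B : Set P} (hA : IsClass A) (hB : IsClass B) : A ⊆ merge A B := by
  intro π hπ
  refine mem_merge_of π Finset.univ (fun σ _ f hf _ => hA.2 π hπ σ ⟨f, hf⟩) ?_
  intro σ hσ _ _ _
  rw [eq_zero σ (by simpa using hσ)]
  exact hB.1

theorem merge_subset {A B : Set P} (hA : IsClass A) (hB : ∀ β ∈ B, β.1 = 0) :
    merge A B ⊆ A := by
  rintro π ⟨α, ha, β, hb, f, g, hf, hg, h⟩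
  refine hA.2 α ha π (le_of_range (f := id) ⟨strictMono_id, fun _ _ => Iff.rfl⟩ hf ?_)
  rintro i -
  rw [h i]
  rintro ⟨x, -⟩
  have := x.2
  have := hB β hb
  omega

/-- a class with a member of length at least `k` has a member of length `k` -/
theorem exists_len {A : Set P} (hA : IsClass A) {α : P} (ha : α ∈ A) {k : ℕ} (hk : k ≤ α.1) :
    ∃ σ ∈ A, σ.1 = k := by
  obtain ⟨S, -, hS⟩ := Finset.exists_subset_card_eq (s := (Finset.univ : Finset (Fin α.1)))
    (n := k) (by simpa using hk)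
  obtain ⟨σ, h1, f, hf, -⟩ := exists_pat α S
  exact ⟨σ, hA.2 α ha σ ⟨f, hf⟩, h1.trans hS⟩

theorem one_mem {C A B : Set P} (h : ExactSplit C A B) :
    (⟨1, 1⟩ : P) ∈ A ∧ (⟨1, 1⟩ : P) ∈ B := by
  obtain ⟨hA, hB, hAC, hBC, hC⟩ := h
  have key : ∀ A B : Set P, IsClass A → IsClass B → A ⊂ merge A B → (⟨1, 1⟩ : P) ∈ B := by
    intro A B hA hB hAC
    by_contra hn
    refine hAC.2 (merge_subset hA fun β hb => ?_)
    by_contra h0
    obtain ⟨σ, h1, h2⟩ := exists_len hB hb (k := 1) (by omega)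
    exact hn (eq_one σ h2 ▸ h1)
  exact ⟨key B A hB hA (by rw [merge_comm, ← hC]; exact hBC), key A B hA hB (hC ▸ hAC)⟩

def p21 : P := ⟨2, Equiv.swap 0 1⟩
def p213 : P := ⟨3, Equiv.swap 0 1⟩

theorem p21_mem {A B : Set P} (ha : (⟨1, 1⟩ : P) ∈ A) (hb : (⟨1, 1⟩ : P) ∈ B) :
    p21 ∈ merge A B := by
  refine mem_merge_of p21 {(0 : Fin 2)} ?_ ?_
  · intro σ hσ _ _ _
    rw [eq_one σ hσ]
    exact ha
  · intro σ hσ _ _ _
    rw [eq_one σ hσ]
    exact hb

theorem atom21 {C : Set P} (h : p21 ∉ C) : IES C {C} := by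
  refine IES.atom C ?_
  rintro ⟨A, B, hs⟩
  have := one_mem hs
  exact h (hs.2.2.2.2 ▸ p21_mem this.1 this.2)

set_option synthInstance.maxSize 4096 in
theorem p213_mem {A B : Set P} (hA : IsClass A) {α : P} (ha : α ∈ A) (h2 : 2 ≤ α.1)
    (hb : (⟨1, 1⟩ : P) ∈ B) : p213 ∈ merge A B := by
  obtain ⟨⟨n, s⟩, h1, h2⟩ := exists_len hA ha h2
  obtain rfl : n = 2 := h2
  have hs : ∀ s : Equiv.Perm (Fin 2), ∃ f : Fin 2 → Fin 3, ∃ g : Fin 1 → Fin 3,
      Occ ⟨2, s⟩ p213 f ∧ Occ ⟨1, 1⟩ p213 g ∧ ∀ i, ((∃ x, f x = i) ↔ ¬ ∃ x, g x = i) := by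
    unfold Occ StrictMono p213
    decide +kernel
  obtain ⟨f, g, hf, hg, h⟩ := hs s
  exact ⟨_, h1, _, hb, f, g, hf, hg, h⟩

theorem atom213 {C : Set P} (h : p213 ∉ C) {π : P} (hπ : π ∈ C) (h3 : 3 ≤ π.1) :
    IES C {C} := by
  refine IES.atom C ?_
  rintro ⟨A, B, hs⟩
  have h1 := one_mem hs
  obtain ⟨hA, hB, -, -, hC⟩ := hs
  subst hC
  obtain ⟨α, ha, β, hb, hl⟩ := merge_len hπ
  by_cases h2 : 2 ≤ α.1
  · exact h (p213_mem hA ha h2 h1.2)
  · exact h (merge_comm B A ▸ p213_mem hB hb (by omega) h1.1)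

/-- all permutations of length at most `k` -/
def F (k : ℕ) : Set P := {π | π.1 ≤ k}
/-- the increasing permutations -/
def I : Set P := {π | ¬ Le p21 π}
/-- the permutations of length at most three other than `213` -/
def A0 : Set P := {π | π.1 ≤ 3 ∧ ¬ Le p213 π}

theorem F_class (k : ℕ) : IsClass (F k) :=
  ⟨Nat.zero_le k, fun _ hπ _ h => (le_len h).trans hπ⟩

theorem I_class : IsClass I :=
  ⟨fun h => absurd (le_len h) (by decide), fun _ hπ _ h h' => hπ (le_trans' h' h)⟩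

theorem A0_class : IsClass A0 :=
  ⟨⟨by decide, fun h => absurd (le_len h) (by decide)⟩,
    fun _ hπ _ h => ⟨(le_len h).trans hπ.1, fun h' => hπ.2 (le_trans' h' h)⟩⟩

theorem id_mem_I (n : ℕ) : (⟨n, 1⟩ : P) ∈ I := by
  rintro ⟨f, hf, h⟩
  have h1 : f (0 : Fin 2) < f (1 : Fin 2) := hf (by decide)
  have h2 := (h (0 : Fin 2) (1 : Fin 2)).2 h1
  revert h2
  decide

theorem p21_not_I : p21 ∉ I := fun h => h (le_refl' _)

theorem F_merge (j k : ℕ) : F (j + k) = merge (F j) (F k) := by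
  ext π
  constructor
  · intro hπ
    obtain ⟨S, -, hS⟩ := Finset.exists_subset_card_eq (s := (Finset.univ : Finset (Fin π.1)))
      (n := min j π.1) (by simp)
    refine mem_merge_of π S ?_ ?_
    · intro σ hσ _ _ _
      show σ.1 ≤ j
      omega
    · intro σ hσ _ _ _
      show σ.1 ≤ k
      rw [Finset.card_compl, Fintype.card_fin] at hσ
      have : π.1 ≤ j + k := hπ
      omega
  · intro h
    obtain ⟨α, ha, β, hb, hl⟩ := merge_len h
    have h1 : α.1 ≤ j := ha
    have h2 : β.1 ≤ k := hb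
    show π.1 ≤ j + k
    omega

theorem F_ssub {j k : ℕ} (h : j < k) : F j ⊂ F k :=
  ⟨fun π (hπ : π.1 ≤ j) => hπ.trans h.le, fun hh => by
    have : (⟨k, 1⟩ : P) ∈ F j := hh (le_refl k)
    exact absurd this (not_le.mpr h)⟩

theorem F4_merge : F 4 = merge A0 (F 1) := by
  ext π
  constructor
  · intro hπ
    have hπ' : π.1 ≤ 4 := hπ
    by_cases h3 : π.1 ≤ 3
    · have h : π ∈ merge (F 2) (F 1) := F_merge 2 1 ▸ h3
      obtain ⟨α, ha, r⟩ := h
      have ha' : α.1 ≤ 2 := ha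
      exact ⟨α, ⟨by omega, fun h => absurd ((le_len h).trans ha') (by decide)⟩, r⟩
    · obtain ⟨n, s⟩ := π
      obtain rfl : n = 4 := by
        have h4 : n ≤ 4 := hπ'
        have h5 : ¬ n ≤ 3 := h3
        omega
      have hs : ∀ s : Equiv.Perm (Fin 4), ∃ i : Fin 4, ∀ a b c : Fin 4, a ≠ i → b ≠ i → c ≠ i →
          a < b → b < c → ¬ (s b < s a ∧ s a < s c) := by
        decide +kernel
      obtain ⟨i, hi⟩ := hs s
      refine mem_merge_of ⟨4, s⟩ ({i}ᶜ : Finset (Fin 4)) ?_ ?_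
      · intro σ hσ f hf hr
        refine ⟨?_, ?_⟩
        · rw [hσ, Finset.card_compl]
          simp
        · rintro ⟨g, hg⟩
          have hc := occ_comp hg hf
          have hne : ∀ x, f x ≠ i := by
            intro x hx
            have : f x ∈ Set.range f := ⟨x, rfl⟩
            rw [hr, hx] at this
            simp at this
          refine hi (f (g (0 : Fin 3))) (f (g (1 : Fin 3))) (f (g (2 : Fin 3))) (hne _) (hne _)
            (hne _) (hc.1 (by decide)) (hc.1 (by decide)) ⟨?_, ?_⟩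
          · exact (hc.2 (1 : Fin 3) (0 : Fin 3)).1 (by decide)
          · exact (hc.2 (0 : Fin 3) (2 : Fin 3)).1 (by decide)
      · intro σ hσ _ _ _
        show σ.1 ≤ 1
        rw [hσ]
        simp
  · intro h
    obtain ⟨α, ha, β, hb, hl⟩ := merge_len h
    have h1 : α.1 ≤ 3 := ha.1
    have h2 : β.1 ≤ 1 := hb
    show π.1 ≤ 4
    omega

theorem F1_ies : IES (F 1) {F 1} := atom21 (by show ¬ (2 ≤ 1); decide)

theorem F2_ies : IES (F 2) {F 1} := by
  have := IES.split (F 2) (F 1) (F 1) _ _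
    ⟨F_class 1, F_class 1, F_ssub (by decide), F_ssub (by decide), F_merge 1 1⟩ F1_ies F1_ies
  simpa using this

theorem F4_ies : IES (F 4) {F 1} := by
  have := IES.split (F 4) (F 2) (F 2) _ _
    ⟨F_class 2, F_class 2, F_ssub (by decide), F_ssub (by decide), F_merge 2 2⟩ F2_ies F2_ies
  simpa using this

theorem id3_mem : (⟨3, 1⟩ : P) ∈ A0 :=
  ⟨le_refl 3, fun h => id_mem_I 3 (le_trans' ⟨Fin.castSucc, Fin.strictMono_castSucc, by
    unfold p21 p213
    decide⟩ h)⟩

theorem F4_ies' : IES (F 4) ({A0} ∪ {F 1}) :=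
  IES.split (F 4) A0 (F 1) _ _
    ⟨A0_class, F_class 1, lt_of_le_of_lt (fun _ h => h.1 : A0 ⊆ F 3) (F_ssub (by decide)),
      F_ssub (by decide), F4_merge⟩
    (atom213 (fun h => h.2 (le_refl' _)) id3_mem (le_refl 3)) F1_ies

theorem top_split : ExactSplit (merge (F 4) I) (F 4) I := by
  have hI : I ⊆ merge (F 4) I := merge_comm I (F 4) ▸ subset_merge I_class (F_class 4)
  have hF : F 4 ⊆ merge (F 4) I := subset_merge (F_class 4) I_class
  refine ⟨F_class 4, I_class, ⟨hF, fun h => ?_⟩, ⟨hI, fun h => ?_⟩, rfl⟩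
  · have : (5 : ℕ) ≤ 4 := h (hI (id_mem_I 5))
    omega
  · exact p21_not_I (h (hF (by show 2 ≤ 4; decide)))

/-- There is an infinite permutation class with two different irreducible exact-splittings. -/
theorem result : ∃ C : Set P, IsClass C ∧ C.Infinite ∧
    ∃ S T : Set (Set P), IES C S ∧ IES C T ∧ S ≠ T := by
  refine ⟨merge (F 4) I, merge_class (F_class 4) I_class, ?_, {F 1} ∪ {I},
    ({A0} ∪ {F 1}) ∪ {I}, IES.split _ _ _ _ _ top_split F4_ies (atom21 p21_not_I),
    IES.split _ _ _ _ _ top_split F4_ies' (atom21 p21_not_I), ?_⟩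
  · have hI : I ⊆ merge (F 4) I := top_split.2.2.2.1.1
    refine Set.infinite_of_injective_forall_mem (f := fun n : ℕ => (⟨n, 1⟩ : P))
      (fun a b h => congrArg Sigma.fst h) (fun n => hI (id_mem_I n))
  · intro h
    have h0 : A0 ∈ ({F 1} ∪ {I} : Set (Set P)) := by
      rw [h]
      simp
    have h21 : p21 ∈ A0 := ⟨by decide, fun h => absurd (le_len h) (by decide)⟩
    rcases h0 with h0 | h0
    · have : p21 ∈ F 1 := (Set.mem_singleton_iff.mp h0) ▸ h21
      exact absurd this (by show ¬ (2 ≤ 1); decide)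
    · exact p21_not_I ((Set.mem_singleton_iff.mp h0) ▸ h21)

end Pool.Agent.Results.MP_673260_co.Counter
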